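import Pool.Agent.MWA.StmtsB

set_option autoImplicit false

namespace Pool.Agent.MWA.H16

open Pool.Agent.Helper14_MV Pool.Agent.Helper2_MV Pool.Agent.MVO Pool.Agent.MWL Pool.Agent.MWS

theorem psh_le {k : ℕ} {g a : ℕ → ℕ} {r : ℕ} (h : ∀ i ≤ k, g i = r → i = r ∨ a i = 0) :
    psh k g a r ≤ a r := by
  unfold psh
  calc (∑ i ∈ Finset.range (k + 1), if g i = r then a i else 0)
      ≤ ∑ i ∈ Finset.range (k + 1), if i = r then a r else 0 := by
        apply Finset.sum_le_sum
        intro i hi
        have hik : i ≤ k := by
          have := Finset.mem_range.1 hi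
          omega
        by_cases h1 : g i = r
        · rw [if_pos h1]
          rcases h i hik h1 with h2 | h2
          · rw [if_pos h2, h2]
          · rw [h2]
            exact Nat.zero_le _
        · rw [if_neg h1]
          exact Nat.zero_le _
    _ ≤ a r := by
        rw [Finset.sum_ite_eq']
        split_ifs
        · exact le_refl _
        · exact Nat.zero_le _

theorem core (htrn : MWL.TrnStmt) (hhab : HabStmt) {θ : FIC} (h00 : RR θ [0, 0] [0, 0, 0]) {k : ℕ}
    {a g : ℕ → ℕ} {j p s : ℕ} (hg : BMap k k g) (hj : j ≤ k) (hgj : g j = p)
    (hr : ∀ r ≤ k, r ≠ s → ∀ i ≤ k, g i = r → i = r ∨ a i = 0)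
    (h1 : AbF θ k a j) (h2 : AbF θ k a s) : AbF θ k a p := by
  obtain ⟨-, -, -, t4⟩ := htrn 1 (FC.ofFIC θ) k a j
  have h3 : Ab 1 (FC.ofFIC θ) k (psh k g a) p := hgj ▸ t4 k g hg hj h1
  obtain ⟨c, hc⟩ : ∃ c : ℕ → ℕ, c = fun r => if r = s then psh k g a s + 2 else a r := ⟨_, rfl⟩
  have h4 : ∀ r ≤ k, psh k g a r ≤ c r := by
    intro r hrk
    rw [hc]
    show _ ≤ if r = s then psh k g a s + 2 else a r
    by_cases hrs : r = s
    · rw [if_pos hrs, hrs]
      omega
    · rw [if_neg hrs]
      exact psh_le (hr r hrk hrs)
  obtain ⟨-, t2, -, -⟩ := htrn 1 (FC.ofFIC θ) k (psh k g a) p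
  have h5 := t2 (fun r => c r - psh k g a r) h3
  obtain ⟨-, -, t3, -⟩ := htrn 1 (FC.ofFIC θ) k (fun r => psh k g a r + (c r - psh k g a r)) p
  have h6 : Ab 1 (FC.ofFIC θ) k c p := (t3 c (fun r hrk => Nat.add_sub_cancel' (h4 r hrk))).1 h5
  have h7 : L1 θ k a c := by
    apply (hhab θ h00).2
    intro i _
    rw [hc]
    by_cases his : i = s
    · right
      refine ⟨?_, his ▸ h2⟩
      show 2 ≤ if i = s then psh k g a s + 2 else a i
      rw [if_pos his]
      omega
    · left
      show (if i = s then psh k g a s + 2 else a i) = a i
      rw [if_neg his]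
  obtain ⟨t1, -, -, -⟩ := htrn 1 (FC.ofFIC θ) k a p
  exact (t1 c h7).2 h6

/-- **MVA** -/
theorem mva (htrn : MWL.TrnStmt) (hhab : HabStmt) : MvaStmt := by
  intro θ h00 k a j p s hjps hj hs haj h1 h2
  rcases hjps with ⟨hjp, hps⟩ | ⟨hsp, hpj⟩
  · refine core htrn hhab h00 (g := fun r => if r < j then r else if r = j then p else
      if r ≤ s then s else r) (j := j) (s := s) ?_ hj ?_ ?_ h1 h2
    · constructor
      · intro i i' hii' _
        show (if i < j then i else if i = j then p else if i ≤ s then s else i) ≤
          (if i' < j then i' else if i' = j then p else if i' ≤ s then s else i')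
        split_ifs <;> omega
      · intro i hi
        show (if i < j then i else if i = j then p else if i ≤ s then s else i) ≤ k
        split_ifs <;> omega
    · show (if j < j then j else if j = j then p else if j ≤ s then s else j) = p
      rw [if_neg (lt_irrefl j), if_pos rfl]
    · intro r hrk hrs i hik hgi
      by_cases hij : i = j
      · right
        rw [hij]
        exact haj
      · left
        have h3 : (if i < j then i else if i = j then p else if i ≤ s then s else i) = r := hgi
        split_ifs at h3 <;> omega
  · refine core htrn hhab h00 (g := fun r => if r < s then r else if r < j then s else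
      if r = j then p else r) (j := j) (s := s) ?_ hj ?_ ?_ h1 h2
    · constructor
      · intro i i' hii' _
        show (if i < s then i else if i < j then s else if i = j then p else i) ≤
          (if i' < s then i' else if i' < j then s else if i' = j then p else i')
        split_ifs <;> omega
      · intro i hi
        show (if i < s then i else if i < j then s else if i = j then p else i) ≤ k
        split_ifs <;> omega
    · show (if j < s then j else if j < j then s else if j = j then p else j) = p
      rw [if_neg (by omega), if_neg (lt_irrefl j), if_pos rfl]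
    · intro r hrk hrs i hik hgi
      by_cases hij : i = j
      · right
        rw [hij]
        exact haj
      · left
        have h3 : (if i < s then i else if i < j then s else if i = j then p else i) = r := hgi
        split_ifs at h3 <;> omega

end Pool.Agent.MWA.H16
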